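import Pool.Agent.H91.Ni5

set_option autoImplicit false

theorem Pool.Agent.Results.MP_1cee73_an.ExactInf.result :
    Pool.Agent.H91.Ni.n2 (ℂ × ℂ) = 9 * √21 / 49 :=
  Pool.Agent.H91.Ni.Ex.main.1
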